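import Pool.Agent.Helper48.BK.Top

/-!
# MP_3923f3_nt: the Liu-Tsang conjecture for almost all coefficient triples

For every `A` there is `C` such that for every `μ > 1` and all large `m`, all but at most
`m ^ 3 / (log m) ^ A` triples `(a, b, c)` of integers with `|a|, |b|, |c| ≤ m` have the property:
for EVERY `d` with `(a, b, c, d)` admissible, `a p + b q + c r = d` has a solution in primes with
`max (p, q, r)` at most both `(|d| / m + m) (log m) ^ C` and `3 |d| + m(a,b,c) ^ μ`.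
-/

set_option autoImplicit false

namespace Pool.Agent.Results.MP_3923f3_nt.AlmostAllTriples

open Finset

/-- Admissible quadruples: `a, b, c` nonzero and not all of the same sign, `a + b + c - d` even,
and each of `gcd(a,b,c)`, `gcd(d,a,b)`, `gcd(d,a,c)`, `gcd(d,b,c)` equal to `1`. -/
def Admissible (a b c d : ℤ) : Prop :=
  a ≠ 0 ∧ b ≠ 0 ∧ c ≠ 0 ∧
  ¬ (0 < a ∧ 0 < b ∧ 0 < c) ∧ ¬ (a < 0 ∧ b < 0 ∧ c < 0) ∧
  Even (a + b + c - d) ∧
  gcd a (gcd b c) = 1 ∧ gcd d (gcd a b) = 1 ∧ gcd d (gcd a c) = 1 ∧ gcd d (gcd b c) = 1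

/-- `m(a,b,c) = max (3, |a|, |b|, |c|)`. -/
def coeffMax (a b c : ℤ) : ℤ := max 3 (max |a| (max |b| |c|))

/-- The triple `(a, b, c)` is exceptional with respect to `C`, `μ`, `m`: for some `d` with
`(a, b, c, d)` admissible there are no primes `p, q, r` with `a p + b q + c r = d` and
`max (p,q,r) ≤ min ((|d| / m + m) (log m) ^ C) (3 |d| + m(a,b,c) ^ μ)`. -/
def Exceptional (C : ℕ) (μ : ℝ) (m : ℕ) (a b c : ℤ) : Prop :=
  ∃ d : ℤ, Admissible a b c d ∧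
    ¬ ∃ p q r : ℕ, p.Prime ∧ q.Prime ∧ r.Prime ∧ a * p + b * q + c * r = d ∧
      ((max p (max q r) : ℕ) : ℝ) ≤
        min ((|(d : ℝ)| / m + m) * Real.log m ^ C) (3 * |(d : ℝ)| + (coeffMax a b c : ℝ) ^ μ)

theorem result : ∀ A : ℕ, ∃ C : ℕ, ∀ μ : ℝ, 1 < μ → ∃ m₀ : ℕ, ∀ m : ℕ, m₀ ≤ m →
    ({v : ℤ × ℤ × ℤ | (|v.1| ≤ m ∧ |v.2.1| ≤ m ∧ |v.2.2| ≤ m) ∧
      Exceptional C μ m v.1 v.2.1 v.2.2}.ncard : ℝ) ≤ (m : ℝ) ^ 3 / Real.log m ^ A := by
  classical
  intro A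
  obtain ⟨C, m₀, hI⟩ := Pool.Agent.Helper48.BK.tInt (A + 1)
  refine ⟨C, fun μ hμ => ?_⟩
  obtain ⟨m₁, hm₁⟩ := Filter.eventually_atTop.1
    ((Pool.Agent.Helper48.BK.ev_Fin A C μ hμ).and (Filter.eventually_ge_atTop (max m₀ 3)))
  refine ⟨m₁, fun m hm => ?_⟩
  obtain ⟨⟨h6, h2, h3, h4⟩, h5⟩ := hm₁ m hm
  set L : ℝ := Real.log m with hL
  have hL0 : (0 : ℝ) < L := by linarith
  have hm3 : 3 ≤ m := (le_max_right _ _).trans h5
  have hm0 : (0 : ℝ) < m := by exact_mod_cast (by omega : 0 < m)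
  have hLA : (0 : ℝ) < L ^ (A + 1) := by positivity
  set n : ℕ := ⌊(m : ℝ) / L ^ (A + 1)⌋₊ with hn
  have hn1 : (n : ℝ) ≤ m / L ^ (A + 1) := Nat.floor_le (by positivity)
  have hn2 : (m : ℝ) / L ^ (A + 1) < n + 1 := Nat.lt_floor_add_one _
  have hx1 : (1 : ℝ) ≤ m / L ^ (A + 1) := by rw [le_div_iff₀ hLA]; linarith
  -- the exceptional set is contained in the union
  set E := (Pool.Agent.Helper48.BK.Box m).filter (fun v : ℤ × ℤ × ℤ => ∃ d : ℤ,
      Pool.Agent.Helper48.BK.Admissible v.1 v.2.1 v.2.2 d ∧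
      ¬ Pool.Agent.Helper48.BK.Solv v.1 v.2.1 v.2.2 d
        ((|(d : ℝ)| / m + m) * Real.log m ^ C)) with hE
  have hsub : {v : ℤ × ℤ × ℤ | (|v.1| ≤ m ∧ |v.2.1| ≤ m ∧ |v.2.2| ≤ m) ∧
      Exceptional C μ m v.1 v.2.1 v.2.2} ⊆
      ((E ∪ Pool.Agent.Helper48.BK.Box n : Finset (ℤ × ℤ × ℤ)) : Set (ℤ × ℤ × ℤ)) := by
    rintro v ⟨hv1, d, hd1, hd2⟩
    rw [Finset.mem_coe, Finset.mem_union]
    by_cases hs : v ∈ Pool.Agent.Helper48.BK.Box n
    · exact Or.inr hs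
    · left
      rw [hE, Finset.mem_filter]
      refine ⟨?_, d, hd1, fun hsol => hd2 ?_⟩
      · unfold Pool.Agent.Helper48.BK.Box
        rw [Finset.mem_product, Finset.mem_product, Finset.mem_Icc, Finset.mem_Icc,
          Finset.mem_Icc, ← abs_le, ← abs_le, ← abs_le]
        exact hv1
      obtain ⟨p, q, r, hp, hq, hr, he, hmx⟩ := hsol
      refine ⟨p, q, r, hp, hq, hr, he, le_min hmx (hmx.trans ?_)⟩
      -- size of the coefficients
      have hbig : (n : ℤ) + 1 ≤ coeffMax v.1 v.2.1 v.2.2 := by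
        unfold coeffMax
        by_contra hcon
        push Not at hcon
        have h1 : max |v.1| (max |v.2.1| |v.2.2|) ≤ (n : ℤ) := by
          have := le_max_right 3 (max |v.1| (max |v.2.1| |v.2.2|))
          omega
        apply hs
        unfold Pool.Agent.Helper48.BK.Box
        rw [Finset.mem_product, Finset.mem_product, Finset.mem_Icc, Finset.mem_Icc,
          Finset.mem_Icc, ← abs_le, ← abs_le, ← abs_le]
        rw [max_le_iff, max_le_iff] at h1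
        exact ⟨h1.1, h1.2.1, h1.2.2⟩
      have hbig' : (n : ℝ) + 1 ≤ (coeffMax v.1 v.2.1 v.2.2 : ℝ) := by
        exact_mod_cast hbig
      have hμ' : (m : ℝ) * L ^ C ≤ (coeffMax v.1 v.2.1 v.2.2 : ℝ) ^ μ := by
        refine h2.trans (Real.rpow_le_rpow (by positivity) ?_ (by linarith))
        linarith
      have hd : |(d : ℝ)| / m * L ^ C ≤ 3 * |(d : ℝ)| := by
        have : |(d : ℝ)| / m * L ^ C ≤ |(d : ℝ)| / m * m := by gcongr
        rw [div_mul_cancel₀ _ hm0.ne'] at this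
        have := abs_nonneg (d : ℝ)
        linarith
      calc (|(d : ℝ)| / m + m) * L ^ C = |(d : ℝ)| / m * L ^ C + m * L ^ C := by ring
        _ ≤ _ := add_le_add hd hμ'
  have hI' := hI m ((le_max_left _ _).trans h5)
  have hcard : ({v : ℤ × ℤ × ℤ | (|v.1| ≤ m ∧ |v.2.1| ≤ m ∧ |v.2.2| ≤ m) ∧
      Exceptional C μ m v.1 v.2.1 v.2.2}.ncard : ℝ) ≤
      (E.card : ℝ) + ((Pool.Agent.Helper48.BK.Box n).card : ℝ) := by
    have h1 := Set.ncard_le_ncard hsub (Finset.finite_toSet _)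
    rw [Set.ncard_coe_finset] at h1
    exact_mod_cast h1.trans (Finset.card_union_le _ _)
  refine hcard.trans ?_
  rw [Pool.Agent.Helper48.BK.boxCard_Mu]
  push_cast
  have hb : (2 * (n : ℝ) + 1) ^ 3 ≤ 27 * (m : ℝ) ^ 3 / L ^ (A + 1) := by
    have h7 : 2 * (n : ℝ) + 1 ≤ 3 * (m / L ^ (A + 1)) := by linarith
    calc (2 * (n : ℝ) + 1) ^ 3 ≤ (3 * (m / L ^ (A + 1))) ^ 3 := by gcongr
      _ = 27 * m ^ 3 / L ^ (A + 1) * (1 / L ^ (A + 1)) ^ 2 := by field_simp; norm_num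
      _ ≤ 27 * m ^ 3 / L ^ (A + 1) * 1 := by
          have h8 : 1 / L ^ (A + 1) ≤ 1 := by
            rw [div_le_one hLA]
            exact one_le_pow₀ (by linarith)
          have h9 : (1 / L ^ (A + 1)) ^ 2 ≤ 1 := pow_le_one₀ (by positivity) h8
          gcongr
      _ = _ := by ring
  calc _ ≤ (m : ℝ) ^ 3 / L ^ (A + 1) + 27 * (m : ℝ) ^ 3 / L ^ (A + 1) := add_le_add hI' hb
    _ = 28 * (m : ℝ) ^ 3 / L ^ (A + 1) := by ring
    _ ≤ (m : ℝ) ^ 3 / L ^ A := by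
        rw [div_le_div_iff₀ (by positivity) (by positivity), pow_succ]
        have : (28 : ℝ) ≤ L := by linarith
        have h9 : (0 : ℝ) ≤ m ^ 3 * L ^ A := by positivity
        calc 28 * (m : ℝ) ^ 3 * L ^ A = (m ^ 3 * L ^ A) * 28 := by ring
          _ ≤ (m ^ 3 * L ^ A) * L := mul_le_mul_of_nonneg_left this h9
          _ = (m : ℝ) ^ 3 * (L ^ A * L) := by ring

end Pool.Agent.Results.MP_3923f3_nt.AlmostAllTriples
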