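import Pool.Agent.Helper29.E3.Top

/-!
# MP_3923f3_nt: exponent 3 for coefficients with small greatest common divisors

For every `K` and every `μ > 3`, all admissible quadruples `(a, b, c, d)` which are large and satisfy
`gcd(a,b) gcd(a,c) gcd(b,c) gcd(d, a b c) ≤ (log max(|a|,|b|,|c|,|d|))^K` (for example: all pairwise
coprime `a, b, c` and all `d` coprime to `a b c`) have the property: the equation
`a p + b q + c r = d` has a solution in primes with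
`max(p, q, r) ≤ 3 |d| / k + (|a b c| / k)^(μ/2)`, `k = min(|a|,|b|,|c|)`, and
`max(p, q, r) ≤ 3 |d| + m^μ`, `m = max(3,|a|,|b|,|c|)`.
-/

set_option autoImplicit false

namespace Pool.Agent.Results.MP_3923f3_nt.ExponentThree

/-- Admissible quadruples: `a, b, c` nonzero and not all of the same sign, `a + b + c - d` even,
and each of `gcd(a,b,c)`, `gcd(d,a,b)`, `gcd(d,a,c)`, `gcd(d,b,c)` equal to `1`. -/
def Admissible (a b c d : ℤ) : Prop :=
  a ≠ 0 ∧ b ≠ 0 ∧ c ≠ 0 ∧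
  ¬ (0 < a ∧ 0 < b ∧ 0 < c) ∧ ¬ (a < 0 ∧ b < 0 ∧ c < 0) ∧
  Even (a + b + c - d) ∧
  gcd a (gcd b c) = 1 ∧ gcd d (gcd a b) = 1 ∧ gcd d (gcd a c) = 1 ∧ gcd d (gcd b c) = 1

/-- `m(a,b,c) = max (3, |a|, |b|, |c|)`. -/
def coeffMax (a b c : ℤ) : ℤ := max 3 (max |a| (max |b| |c|))

/-- `k(a,b,c) = min (|a|, |b|, |c|)`. -/
def coeffMin (a b c : ℤ) : ℤ := min |a| (min |b| |c|)

/-- `max (|a|, |b|, |c|, |d|)`. -/
def height (a b c d : ℤ) : ℤ := max |d| (max |a| (max |b| |c|))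

/-- `gcd(a,b) gcd(a,c) gcd(b,c) gcd(d, a b c)`. -/
def gcdProd (a b c d : ℤ) : ℕ :=
  Int.gcd a b * Int.gcd a c * Int.gcd b c * Int.gcd d (a * b * c)

theorem result : ∀ (K : ℕ) (μ : ℝ), 3 < μ → ∃ x₀ : ℕ, ∀ a b c d : ℤ,
    Admissible a b c d → (x₀ : ℤ) ≤ height a b c d →
    (gcdProd a b c d : ℝ) ≤ Real.log (height a b c d) ^ K →
    ∃ p q r : ℕ, p.Prime ∧ q.Prime ∧ r.Prime ∧ a * p + b * q + c * r = d ∧
      ((max p (max q r) : ℕ) : ℝ) ≤
        min (3 * |(d : ℝ)| / coeffMin a b c +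
            (|((a * b * c : ℤ) : ℝ)| / coeffMin a b c) ^ (μ / 2))
          (3 * |(d : ℝ)| + (coeffMax a b c : ℝ) ^ μ) := by
  intro K μ hμ
  obtain ⟨N, hN, x₁, h₁⟩ := Pool.Agent.Helper29.E3.xFINX ((μ - 3) / 2) (by linarith)
  obtain ⟨x₀, h⟩ := Pool.Agent.Helper29.E3.xINTX K N hN
  refine ⟨max (max x₀ x₁) 1, ?_⟩
  intro a b c d hadm hx hg
  obtain ⟨ha, hb, hc, hs1, hs2, hev, hg1, hg2, hg3, hg4⟩ := id hadm
  have hx0 : (x₀ : ℤ) ≤ max |d| (max |a| (max |b| |c|)) := by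
    refine le_trans ?_ hx
    exact_mod_cast (le_max_left x₀ x₁).trans (le_max_left _ 1)
  have hx1 : (x₁ : ℤ) ≤ max |d| (max |a| (max |b| |c|)) := by
    refine le_trans ?_ hx
    exact_mod_cast (le_max_right x₀ x₁).trans (le_max_left _ 1)
  -- the two factors of the product of the greatest common divisors
  have habc : a * b * c ≠ 0 := mul_ne_zero (mul_ne_zero ha hb) hc
  have p1 : 1 ≤ Int.gcd a b * Int.gcd a c * Int.gcd b c :=
    Nat.mul_pos (Nat.mul_pos (Int.gcd_pos_of_ne_zero_left _ ha)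
      (Int.gcd_pos_of_ne_zero_left _ ha)) (Int.gcd_pos_of_ne_zero_left _ hb)
  have p2 : 1 ≤ Int.gcd d (a * b * c) := Int.gcd_pos_of_ne_zero_right _ habc
  have q1 : ((Int.gcd a b * Int.gcd a c * Int.gcd b c : ℕ) : ℝ) ≤ (gcdProd a b c d : ℝ) := by
    exact_mod_cast Nat.le_mul_of_pos_right _ p2
  have q2 : (Int.gcd d (a * b * c) : ℝ) ≤ (gcdProd a b c d : ℝ) := by
    exact_mod_cast Nat.le_mul_of_pos_left _ p1
  have hadm' : Pool.Agent.Helper48.BK.Admissible a b c d := hadm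
  obtain ⟨p, q, r, hp, hq, hr, he, hm⟩ := h a b c d hadm' hx0 (q1.trans hg) (q2.trans hg)
  refine ⟨p, q, r, hp, hq, hr, he, ?_⟩
  have k := hm.trans (h₁ a b c d ha hb hc hx1)
  have e1 : (3 : ℝ) / 2 + (μ - 3) / 2 = μ / 2 := by ring
  have e2 : (3 : ℝ) + 2 * ((μ - 3) / 2) = μ := by ring
  rw [e1, e2] at k
  exact k

end Pool.Agent.Results.MP_3923f3_nt.ExponentThree
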