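import Pool.Agent.Helper58.PB.All

/-!
# MP_3923f3_nt: a power-saving exceptional set in every box `N × N × m`

For every `μ > 1` there are `δ > 0` and `m₀` such that for all `m ≥ m₀` and all `1 ≤ N ≤ m`, all
but at most `N ^ 2 * m ^ (1 - δ)` integer triples `(a, b, c)` with `|a|, |b| ≤ N`, `|c| ≤ m` have
the property: for EVERY `d` with `(a, b, c, d)` admissible, `a p + b q + c r = d` has a solution in
primes with `max (p, q, r)` at most both `3 |d| + m(a,b,c) ^ μ` and `(|d| / N + m) m ^ (μ - 1)`.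
-/

set_option autoImplicit false

namespace Pool.Agent.Results.MP_3923f3_nt.PowerSavingBoxes

open Finset

/-- Admissible quadruples: `a, b, c` nonzero and not all of the same sign, `a + b + c - d` even,
and each of `gcd(a,b,c)`, `gcd(d,a,b)`, `gcd(d,a,c)`, `gcd(d,b,c)` equal to `1`. -/
def Admissible (a b c d : ℤ) : Prop :=
  a ≠ 0 ∧ b ≠ 0 ∧ c ≠ 0 ∧
  ¬ (0 < a ∧ 0 < b ∧ 0 < c) ∧ ¬ (a < 0 ∧ b < 0 ∧ c < 0) ∧
  Even (a + b + c - d) ∧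
  gcd a (gcd b c) = 1 ∧ gcd d (gcd a b) = 1 ∧ gcd d (gcd a c) = 1 ∧ gcd d (gcd b c) = 1

/-- `m(a,b,c) = max (3, |a|, |b|, |c|)`. -/
def coeffMax (a b c : ℤ) : ℤ := max 3 (max |a| (max |b| |c|))

/-- The triple `(a, b, c)` is exceptional with respect to `μ`, `N`, `m`: for some `d` with
`(a, b, c, d)` admissible there are no primes `p, q, r` with `a p + b q + c r = d` and
`max (p,q,r) ≤ min (3 |d| + m(a,b,c) ^ μ) ((|d| / N + m) m ^ (μ - 1))`. -/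
def Exceptional (μ : ℝ) (N m : ℕ) (a b c : ℤ) : Prop :=
  ∃ d : ℤ, Admissible a b c d ∧
    ¬ ∃ p q r : ℕ, p.Prime ∧ q.Prime ∧ r.Prime ∧ a * p + b * q + c * r = d ∧
      ((max p (max q r) : ℕ) : ℝ) ≤
        min (3 * |(d : ℝ)| + (coeffMax a b c : ℝ) ^ μ)
          ((|(d : ℝ)| / N + m) * (m : ℝ) ^ (μ - 1))

theorem result : ∀ μ : ℝ, 1 < μ → ∃ δ : ℝ, 0 < δ ∧ ∃ m₀ : ℕ, ∀ N m : ℕ,
    m₀ ≤ m → 1 ≤ N → N ≤ m →
    ({v : ℤ × ℤ × ℤ | (|v.1| ≤ N ∧ |v.2.1| ≤ N ∧ |v.2.2| ≤ m) ∧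
      Exceptional μ N m v.1 v.2.1 v.2.2}.ncard : ℝ) ≤ (N : ℝ) ^ 2 * (m : ℝ) ^ (1 - δ) :=
  Pool.Agent.Helper58.PB.final_of_inp Pool.Agent.Helper58.PB.tInp

end Pool.Agent.Results.MP_3923f3_nt.PowerSavingBoxes
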