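import Pool.Agent.Helper30.HX.Top
import Pool.Agent.Helper30.HX.Fin
import Pool.Agent.Helper48.BK.M_Mu

/-!
# MP_3923f3_nt: the typical size of the least prime solution of `a p + b q + c r = 0`

For every `A` there is `C` such that for all `ν < 1/2 < μ` and all large `m`, all but at most
`m ^ 3 / (log m) ^ A` triples `(a, b, c)` of integers with `|a|, |b|, |c| ≤ m` have the property:
every solution of `a p + b q + c r = 0` in primes has `max (p, q, r)` larger than both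
`√m / (log m) ^ C` and `m(a,b,c) ^ ν`, and if `(a, b, c, 0)` is admissible there is a solution with
`max (p, q, r)` at most both `√m (log m) ^ C` and `m(a,b,c) ^ μ`.  At least `m ^ 3 / 100` triples
are admissible.
-/

set_option autoImplicit false

namespace Pool.Agent.Results.MP_3923f3_nt.TypicalSize

open Finset

/-- Admissible quadruples: `a, b, c` nonzero and not all of the same sign, `a + b + c - d` even,
and each of `gcd(a,b,c)`, `gcd(d,a,b)`, `gcd(d,a,c)`, `gcd(d,b,c)` equal to `1`. -/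
def Admissible (a b c d : ℤ) : Prop :=
  a ≠ 0 ∧ b ≠ 0 ∧ c ≠ 0 ∧
  ¬ (0 < a ∧ 0 < b ∧ 0 < c) ∧ ¬ (a < 0 ∧ b < 0 ∧ c < 0) ∧
  Even (a + b + c - d) ∧
  gcd a (gcd b c) = 1 ∧ gcd d (gcd a b) = 1 ∧ gcd d (gcd a c) = 1 ∧ gcd d (gcd b c) = 1

/-- `m(a,b,c) = max (3, |a|, |b|, |c|)`. -/
def coeffMax (a b c : ℤ) : ℤ := max 3 (max |a| (max |b| |c|))

/-- `a p + b q + c r = d` has a solution in primes with `max (p, q, r) ≤ Y`. -/
def SolvableUpTo (a b c d : ℤ) (Y : ℝ) : Prop :=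
  ∃ p q r : ℕ, p.Prime ∧ q.Prime ∧ r.Prime ∧ a * p + b * q + c * r = d ∧
    ((max p (max q r) : ℕ) : ℝ) ≤ Y

/-- The triple `(a, b, c)` is exceptional with respect to `C`, `ν`, `μ`, `m`: either
`a p + b q + c r = 0` has a prime solution that is too small, or `(a, b, c, 0)` is admissible and
there is no prime solution that is small enough. -/
def Exceptional (C : ℕ) (ν μ : ℝ) (m : ℕ) (a b c : ℤ) : Prop :=
  SolvableUpTo a b c 0 (max (√m / Real.log m ^ C) ((coeffMax a b c : ℝ) ^ ν)) ∨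
  (Admissible a b c 0 ∧
    ¬ SolvableUpTo a b c 0 (min (√m * Real.log m ^ C) ((coeffMax a b c : ℝ) ^ μ)))

theorem result : ∀ A : ℕ, ∃ C : ℕ, ∀ ν μ : ℝ, ν < 1 / 2 → 1 / 2 < μ → ∃ m₀ : ℕ, ∀ m : ℕ, m₀ ≤ m →
    ({v : ℤ × ℤ × ℤ | (|v.1| ≤ m ∧ |v.2.1| ≤ m ∧ |v.2.2| ≤ m) ∧
      Exceptional C ν μ m v.1 v.2.1 v.2.2}.ncard : ℝ) ≤ (m : ℝ) ^ 3 / Real.log m ^ A ∧
    (m : ℝ) ^ 3 / 100 ≤ ({v : ℤ × ℤ × ℤ | (|v.1| ≤ m ∧ |v.2.1| ≤ m ∧ |v.2.2| ≤ m) ∧
      Admissible v.1 v.2.1 v.2.2 0}.ncard : ℝ) := by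
  classical
  intro A
  obtain ⟨C₁, m₁, hI⟩ := Pool.Agent.Helper30.HX.tInt (A + 1)
  obtain ⟨m₂, hLw⟩ := Pool.Agent.Helper30.HX.hLow (A + 1)
  obtain ⟨m₃, hNv⟩ := Pool.Agent.Helper30.HX.hNV
  refine ⟨max C₁ (A + 2), fun ν μ hν hμ => ?_⟩
  set C := max C₁ (A + 2) with hC
  obtain ⟨m₀, hm₀⟩ := Filter.eventually_atTop.1
    ((Pool.Agent.Helper30.HX.ev_Fin A C ν μ hν hμ).and
      (Filter.eventually_ge_atTop (max (max m₁ m₂) (max m₃ 3))))
  refine ⟨m₀, fun m hm => ?_⟩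
  obtain ⟨⟨h6, h2, h3, h4, h5⟩, hmm⟩ := hm₀ m hm
  have hmem : ∀ (n : ℕ) (v : ℤ × ℤ × ℤ), v ∈ Pool.Agent.Helper48.BK.Box n ↔
      (|v.1| ≤ n ∧ |v.2.1| ≤ n ∧ |v.2.2| ≤ n) := by
    intro n v
    unfold Pool.Agent.Helper48.BK.Box
    rw [Finset.mem_product, Finset.mem_product, Finset.mem_Icc, Finset.mem_Icc,
      Finset.mem_Icc, ← abs_le, ← abs_le, ← abs_le]
  constructor
  swap
  · have h := hNv m ((le_max_left _ _).trans ((le_max_right _ _).trans hmm))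
    have e : {v : ℤ × ℤ × ℤ | (|v.1| ≤ m ∧ |v.2.1| ≤ m ∧ |v.2.2| ≤ m) ∧
        Admissible v.1 v.2.1 v.2.2 0} =
        ({v ∈ Pool.Agent.Helper48.BK.Box m |
          Pool.Agent.Helper48.BK.Admissible v.1 v.2.1 v.2.2 0} : Set (ℤ × ℤ × ℤ)) := by
      ext v
      constructor
      · rintro ⟨h1, h2⟩
        exact ⟨(hmem m v).2 h1, h2⟩
      · rintro ⟨h1, h2⟩
        exact ⟨(hmem m v).1 h1, h2⟩
    rw [e]
    exact h
  set L : ℝ := Real.log m with hL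
  have hL0 : (0 : ℝ) < L := by linarith
  have hL1 : (1 : ℝ) ≤ L := by linarith
  have hm3 : 3 ≤ m := (le_max_right _ _).trans ((le_max_right _ _).trans hmm)
  have hm0 : (0 : ℝ) < m := by exact_mod_cast (by omega : 0 < m)
  have hLA : (0 : ℝ) < L ^ (A + 1) := by positivity
  set n : ℕ := ⌊(m : ℝ) / L ^ (A + 1)⌋₊ with hn
  have hn1 : (n : ℝ) ≤ m / L ^ (A + 1) := Nat.floor_le (by positivity)
  have hn2 : (m : ℝ) / L ^ (A + 1) < n + 1 := Nat.lt_floor_add_one _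
  have hx1 : (1 : ℝ) ≤ m / L ^ (A + 1) := by rw [le_div_iff₀ hLA]; linarith
  -- the three sets
  set E₁ : Set (ℤ × ℤ × ℤ) := {v ∈ Pool.Agent.Helper48.BK.Box m |
    Pool.Agent.Helper48.BK.Admissible v.1 v.2.1 v.2.2 0 ∧
    ¬ Pool.Agent.Helper48.BK.Solv v.1 v.2.1 v.2.2 0 (√m * L ^ C₁)} with hE₁
  set E₂ : Set (ℤ × ℤ × ℤ) := {v ∈ Pool.Agent.Helper48.BK.Box m |
    Pool.Agent.Helper48.BK.Solv v.1 v.2.1 v.2.2 0 (√m / L ^ (A + 1 + 1))} with hE₂
  have hcm : ∀ v : ℤ × ℤ × ℤ, (|v.1| ≤ m ∧ |v.2.1| ≤ m ∧ |v.2.2| ≤ m) →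
      coeffMax v.1 v.2.1 v.2.2 ≤ m := by
    rintro v ⟨a1, a2, a3⟩
    exact max_le (by exact_mod_cast hm3) (max_le a1 (max_le a2 a3))
  have hc3 : ∀ v : ℤ × ℤ × ℤ, (3 : ℝ) ≤ (coeffMax v.1 v.2.1 v.2.2 : ℝ) := by
    intro v
    have : (3 : ℤ) ≤ coeffMax v.1 v.2.1 v.2.2 := le_max_left _ _
    exact_mod_cast this
  have hsub : {v : ℤ × ℤ × ℤ | (|v.1| ≤ m ∧ |v.2.1| ≤ m ∧ |v.2.2| ≤ m) ∧
      Exceptional C ν μ m v.1 v.2.1 v.2.2} ⊆
      E₁ ∪ (E₂ ∪ ((Pool.Agent.Helper48.BK.Box n : Finset (ℤ × ℤ × ℤ)) : Set (ℤ × ℤ × ℤ))) := by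
    rintro v ⟨hv1, hv2⟩
    rcases hv2 with hsm | ⟨had, hns⟩
    · -- a prime solution that is too small
      right; left
      refine ⟨(hmem m v).2 hv1, ?_⟩
      obtain ⟨p, q, r, hp, hq, hr, he, hmx⟩ := hsm
      refine ⟨p, q, r, hp, hq, hr, he, hmx.trans (max_le ?_ ?_)⟩
      · have : A + 1 + 1 ≤ C := le_max_right _ _
        gcongr
      · have hcmv : ((coeffMax v.1 v.2.1 v.2.2 : ℤ) : ℝ) ≤ m := by exact_mod_cast hcm v hv1
        rcases le_or_gt 0 ν with h0 | h0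
        · exact (Real.rpow_le_rpow (by linarith [hc3 v]) hcmv h0).trans h3
        · refine le_trans ?_ h4
          exact Real.rpow_le_one_of_one_le_of_nonpos (by linarith [hc3 v]) h0.le
    · by_cases hs : v ∈ Pool.Agent.Helper48.BK.Box n
      · right; right; exact hs
      · left
        refine ⟨(hmem m v).2 hv1, had, fun hsol => hns ?_⟩
        obtain ⟨p, q, r, hp, hq, hr, he, hmx⟩ := hsol
        refine ⟨p, q, r, hp, hq, hr, he, hmx.trans (le_min ?_ ?_)⟩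
        · have : C₁ ≤ C := le_max_left _ _
          gcongr
        have hbig : (n : ℤ) + 1 ≤ coeffMax v.1 v.2.1 v.2.2 := by
          unfold coeffMax
          by_contra hcon
          push Not at hcon
          have h1 : max |v.1| (max |v.2.1| |v.2.2|) ≤ (n : ℤ) := by
            have := le_max_right 3 (max |v.1| (max |v.2.1| |v.2.2|))
            omega
          apply hs
          rw [hmem]
          rw [max_le_iff, max_le_iff] at h1
          exact ⟨h1.1, h1.2.1, h1.2.2⟩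
        have hbig' : (n : ℝ) + 1 ≤ (coeffMax v.1 v.2.1 v.2.2 : ℝ) := by
          exact_mod_cast hbig
        have hCC : √(m : ℝ) * L ^ C₁ ≤ √m * L ^ C := by
          have : C₁ ≤ C := le_max_left _ _
          gcongr
        refine hCC.trans (h2.trans (Real.rpow_le_rpow (by positivity) ?_ (by linarith)))
        linarith
  have hI' := hI m ((le_max_left _ _).trans ((le_max_left _ _).trans hmm))
  have hL' := hLw m ((le_max_right _ _).trans ((le_max_left _ _).trans hmm))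
  have hfin : ∀ P : ℤ × ℤ × ℤ → Prop,
      ({v ∈ Pool.Agent.Helper48.BK.Box m | P v} : Set (ℤ × ℤ × ℤ)).Finite := fun P =>
    (Finset.finite_toSet (Pool.Agent.Helper48.BK.Box m)).subset fun v hv => hv.1
  have hcard : ({v : ℤ × ℤ × ℤ | (|v.1| ≤ m ∧ |v.2.1| ≤ m ∧ |v.2.2| ≤ m) ∧
      Exceptional C ν μ m v.1 v.2.1 v.2.2}.ncard : ℝ) ≤
      (E₁.ncard : ℝ) + ((E₂.ncard : ℝ) + ((Pool.Agent.Helper48.BK.Box n).card : ℝ)) := by
    have h1 := Set.ncard_le_ncard hsub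
      ((hfin _).union ((hfin _).union (Finset.finite_toSet _)))
    have h2 := Set.ncard_union_le E₁
      (E₂ ∪ ((Pool.Agent.Helper48.BK.Box n : Finset (ℤ × ℤ × ℤ)) : Set (ℤ × ℤ × ℤ)))
    have h3 := Set.ncard_union_le E₂
      ((Pool.Agent.Helper48.BK.Box n : Finset (ℤ × ℤ × ℤ)) : Set (ℤ × ℤ × ℤ))
    rw [Set.ncard_coe_finset] at h3
    exact_mod_cast h1.trans (h2.trans (by omega))
  refine hcard.trans ?_
  rw [Pool.Agent.Helper48.BK.boxCard_Mu]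
  push_cast
  have hb : (2 * (n : ℝ) + 1) ^ 3 ≤ 27 * (m : ℝ) ^ 3 / L ^ (A + 1) := by
    have h7 : 2 * (n : ℝ) + 1 ≤ 3 * (m / L ^ (A + 1)) := by linarith
    calc (2 * (n : ℝ) + 1) ^ 3 ≤ (3 * (m / L ^ (A + 1))) ^ 3 := by gcongr
      _ = 27 * m ^ 3 / L ^ (A + 1) * (1 / L ^ (A + 1)) ^ 2 := by field_simp; norm_num
      _ ≤ 27 * m ^ 3 / L ^ (A + 1) * 1 := by
          have h8 : 1 / L ^ (A + 1) ≤ 1 := by
            rw [div_le_one hLA]
            exact one_le_pow₀ hL1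
          have h9 : (1 / L ^ (A + 1)) ^ 2 ≤ 1 := pow_le_one₀ (by positivity) h8
          gcongr
      _ = _ := by ring
  calc _ ≤ (m : ℝ) ^ 3 / L ^ (A + 1) + ((m : ℝ) ^ 3 / L ^ (A + 1) +
        27 * (m : ℝ) ^ 3 / L ^ (A + 1)) := add_le_add hI' (add_le_add hL' hb)
    _ = 29 * (m : ℝ) ^ 3 / L ^ (A + 1) := by ring
    _ ≤ (m : ℝ) ^ 3 / L ^ A := by
        rw [div_le_div_iff₀ (by positivity) (by positivity), pow_succ]
        have : (29 : ℝ) ≤ L := by linarith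
        have h9 : (0 : ℝ) ≤ m ^ 3 * L ^ A := by positivity
        calc 29 * (m : ℝ) ^ 3 * L ^ A = (m ^ 3 * L ^ A) * 29 := by ring
          _ ≤ (m ^ 3 * L ^ A) * L := mul_le_mul_of_nonneg_left this h9
          _ = (m : ℝ) ^ 3 * (L ^ A * L) := by ring

end Pool.Agent.Results.MP_3923f3_nt.TypicalSize
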